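import Pool.Agent.Y105.HG.Stm

/-!
# The abstract renorming theorem `S_REN`
-/

set_option autoImplicit false

open Finset

namespace Pool.Agent.Y380.HG

variable {ι : Type} [DecidableEq ι]

/-- The functional `v ∑_P u + ∑_W min(φ, v) u`. -/
noncomputable def Lf (W P : Finset ι) (φ : ι → ℝ) (v : ℝ) (u : ι → ℝ) : ℝ :=
  v * ∑ i ∈ P, u i + ∑ i ∈ W, min (φ i) v * u i

/-- The conditions on the data of a functional. -/
structure Good (K : Finset ι → (ι → ℝ) → Prop) (A W P : Finset ι) (φ : ι → ℝ) (v : ℝ) : Prop where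
  nn : ∀ i, 0 ≤ φ i
  k0 : K (A ∪ W) φ
  dAW : Disjoint A W
  dPW : Disjoint P W
  card : P.card = A.card
  v0 : 0 ≤ v
  eqn : (A.card : ℝ) * v = ∑ i ∈ A, φ i + ∑ i ∈ W, max (φ i - v) 0

omit [DecidableEq ι] in
theorem Lf_mono {W P : Finset ι} {φ : ι → ℝ} {v : ℝ} (nn : ∀ i, 0 ≤ φ i) (v0 : 0 ≤ v)
    {u w : ι → ℝ} (h : ∀ i, u i ≤ w i) : Lf W P φ v u ≤ Lf W P φ v w := by
  unfold Lf
  apply add_le_add
  · exact mul_le_mul_of_nonneg_left (Finset.sum_le_sum fun i _ => h i) v0
  · exact Finset.sum_le_sum fun i _ => mul_le_mul_of_nonneg_left (h i) (le_min (nn i) v0)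

theorem Lf_add (W P : Finset ι) (φ : ι → ℝ) (v : ℝ) (u : ι → ℝ) (a : ι) (t : ℝ) :
    Lf W P φ v (fun i => u i + if i = a then t else 0) = Lf W P φ v u +
      t * ((if a ∈ P then v else 0) + (if a ∈ W then min (φ a) v else 0)) := by
  unfold Lf
  simp only [mul_add, Finset.sum_add_distrib, mul_ite, mul_zero, Finset.sum_ite_eq']
  split_ifs <;> ring

theorem key3 {K : Finset ι → (ι → ℝ) → Prop} (hK : ∀ Z Z' φ, Z' ⊆ Z → K Z φ → K Z' φ)
    {A W P : Finset ι} {φ : ι → ℝ} {v : ℝ} (g : Good K A W P φ v) (u : ι → ℝ) (t : ℝ)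
    (hu0 : ∀ i, 0 ≤ u i) (hut : ∀ i, u i ≤ t) (a b : ι)
    (ha : u a = 0) (hbP : b ∉ P) (hbW : b ∉ W) :
    ∃ (A' W' P' : Finset ι) (v' : ℝ), Good K A' W' P' φ v' ∧
      Lf W P φ v (fun i => u i + if i = a then t else 0) ≤
        Lf W' P' φ v' (fun i => u i + if i = b then t else 0) := by
  have ht : 0 ≤ t := (hu0 a).trans (hut a)
  by_cases haW : a ∈ W
  · -- the main case
    have haP : a ∉ P := fun h => Finset.disjoint_left.1 g.dPW h haW
    have haA : a ∉ A := fun h => Finset.disjoint_left.1 g.dAW h haW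
    have hsum : ∀ f : ι → ℝ, ∑ i ∈ W, f i = f a + ∑ i ∈ W.erase a, f i := fun f =>
      (Finset.add_sum_erase W f haW).symm
    -- choose `v'`
    obtain ⟨v', hv', hgv⟩ : ∃ v' ∈ Set.Icc (0 : ℝ) v,
        ((A.card : ℝ) + 1) * v' - (∑ i ∈ A, φ i) - φ a - ∑ i ∈ W.erase a, max (φ i - v') 0 = 0 := by
      have hcont : ContinuousOn (fun s : ℝ => ((A.card : ℝ) + 1) * s - (∑ i ∈ A, φ i) - φ a -
          ∑ i ∈ W.erase a, max (φ i - s) 0) (Set.Icc 0 v) := by
        apply Continuous.continuousOn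
        refine Continuous.sub (by fun_prop) ?_
        exact continuous_finsetSum _ fun i _ => by fun_prop
      have h0 : ((A.card : ℝ) + 1) * 0 - (∑ i ∈ A, φ i) - φ a -
          ∑ i ∈ W.erase a, max (φ i - 0) 0 ≤ 0 := by
        have h1 : 0 ≤ ∑ i ∈ A, φ i := Finset.sum_nonneg fun i _ => g.nn i
        have h2 : 0 ≤ ∑ i ∈ W.erase a, max (φ i - 0) 0 :=
          Finset.sum_nonneg fun i _ => le_max_right _ _
        have h3 := g.nn a
        linarith
      have h1 : 0 ≤ ((A.card : ℝ) + 1) * v - (∑ i ∈ A, φ i) - φ a -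
          ∑ i ∈ W.erase a, max (φ i - v) 0 := by
        have e := g.eqn
        rw [hsum] at e
        have h2 : v - φ a + max (φ a - v) 0 ≥ 0 := by
          rcases le_total (φ a) v with h | h
          · have := le_max_right (φ a - v) 0
            linarith
          · have := le_max_left (φ a - v) 0
            linarith
        linarith
      obtain ⟨s, hs, hs2⟩ := intermediate_value_Icc g.v0 hcont ⟨h0, h1⟩
      exact ⟨s, hs, hs2⟩
    refine ⟨insert a A, W.erase a, insert b P, v', ⟨g.nn, ?_, ?_, ?_, ?_, hv'.1, ?_⟩, ?_⟩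
    · refine hK _ _ _ ?_ g.k0
      intro i hi
      simp only [Finset.mem_union, Finset.mem_insert, Finset.mem_erase] at hi ⊢
      rcases hi with (rfl | h) | h
      · exact Or.inr haW
      · exact Or.inl h
      · exact Or.inr h.2
    · rw [Finset.disjoint_left]
      intro i hi hi2
      simp only [Finset.mem_insert, Finset.mem_erase] at hi hi2
      rcases hi with h | h
      · exact hi2.1 h
      · exact Finset.disjoint_left.1 g.dAW h hi2.2
    · rw [Finset.disjoint_left]
      intro i hi hi2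
      simp only [Finset.mem_insert, Finset.mem_erase] at hi hi2
      rcases hi with h | h
      · exact hbW (h ▸ hi2.2)
      · exact Finset.disjoint_left.1 g.dPW h hi2.2
    · rw [Finset.card_insert_of_notMem hbP, Finset.card_insert_of_notMem haA, g.card]
    · rw [Finset.card_insert_of_notMem haA, Finset.sum_insert haA]
      push_cast
      linarith
    · rw [Lf_add, Lf_add]
      have hb1 : b ∈ insert b P := Finset.mem_insert_self _ _
      have hb2 : b ∉ W.erase a := fun h => hbW (Finset.mem_of_mem_erase h)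
      rw [if_neg haP, if_pos haW, if_pos hb1, if_neg hb2]
      unfold Lf
      rw [Finset.sum_insert hbP, hsum (fun i => min (φ i) v * u i), ha, mul_zero]
      have hP : (v - v') * ∑ i ∈ P, u i ≤ (v - v') * (P.card * t) := by
        apply mul_le_mul_of_nonneg_left _ (sub_nonneg.2 hv'.2)
        calc ∑ i ∈ P, u i ≤ ∑ i ∈ P, t := Finset.sum_le_sum fun i _ => hut i
          _ = P.card * t := by simp
      have hW : ∑ i ∈ W.erase a, (min (φ i) v - min (φ i) v') * u i ≤
          ∑ i ∈ W.erase a, (min (φ i) v - min (φ i) v') * t := by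
        refine Finset.sum_le_sum fun i _ => mul_le_mul_of_nonneg_left (hut i) ?_
        exact sub_nonneg.2 (min_le_min le_rfl hv'.2)
      have hmm : ∀ (s : ℝ) (i : ι), max (φ i - s) 0 = φ i - min (φ i) s := by
        intro s i
        rcases le_total (φ i) s with h | h
        · rw [max_eq_right (by linarith), min_eq_left h]; ring
        · rw [max_eq_left (by linarith), min_eq_right h]
      have e1 := g.eqn
      rw [hsum] at e1
      simp only [hmm, Finset.sum_sub_distrib] at e1 hgv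
      simp only [sub_mul, Finset.sum_sub_distrib] at hW
      rw [← Finset.sum_mul, ← Finset.sum_mul] at hW
      rw [← g.card] at e1 hgv
      have hub : 0 ≤ u b := hu0 b
      have h5 : 0 ≤ v' * u b := mul_nonneg hv'.1 hub
      have e2 : (P.card * v) * t = ((∑ i ∈ A, φ i) + (φ a - min (φ a) v + ((∑ i ∈ W.erase a, φ i) -
        ∑ i ∈ W.erase a, min (φ i) v))) * t := by rw [e1]
      have e3 : (((P.card : ℝ) + 1) * v' - (∑ i ∈ A, φ i) - φ a -
        ((∑ i ∈ W.erase a, φ i) - ∑ i ∈ W.erase a, min (φ i) v')) * t = 0 := by rw [hgv, zero_mul]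
      nlinarith [e2, e3, hP, hW, h5]
  · by_cases haP : a ∈ P
    · refine ⟨A, W, insert b (P.erase a), v, ⟨g.nn, g.k0, g.dAW, ?_, ?_, g.v0, g.eqn⟩, ?_⟩
      · rw [Finset.disjoint_left]
        intro i hi hi2
        simp only [Finset.mem_insert, Finset.mem_erase] at hi
        rcases hi with h | h
        · exact hbW (h ▸ hi2)
        · exact Finset.disjoint_left.1 g.dPW h.2 hi2
      · rw [Finset.card_insert_of_notMem (fun h => hbP (Finset.mem_of_mem_erase h)),
          Finset.card_erase_add_one haP, g.card]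
      · rw [Lf_add, Lf_add]
        rw [if_pos haP, if_neg haW, if_pos (Finset.mem_insert_self _ _), if_neg hbW]
        unfold Lf
        rw [Finset.sum_insert (fun h => hbP (Finset.mem_of_mem_erase h)),
          ← Finset.add_sum_erase P u haP, ha]
        have h5 : 0 ≤ v * u b := mul_nonneg g.v0 (hu0 b)
        nlinarith [h5]
    · refine ⟨A, W, P, v, g, ?_⟩
      rw [Lf_add, Lf_add, if_neg haP, if_neg haW, if_neg hbP, if_neg hbW]

theorem key {K : Finset ι → (ι → ℝ) → Prop} (hK : ∀ Z Z' φ, Z' ⊆ Z → K Z φ → K Z' φ)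
    {A W P : Finset ι} {φ : ι → ℝ} {v : ℝ} (g : Good K A W P φ v) (u : ι → ℝ) (t : ℝ)
    (hu0 : ∀ i, 0 ≤ u i) (hut : ∀ i, u i ≤ t) (a b : ι) (hab : a ≠ b)
    (ha : u a = 0) (hb : u b = 0) :
    ∃ (A' W' P' : Finset ι) (v' : ℝ), Good K A' W' P' φ v' ∧
      Lf W P φ v (fun i => u i + if i = a then t else 0) ≤
        Lf W' P' φ v' (fun i => u i + if i = b then t else 0) := by
  have ht : 0 ≤ t := (hu0 a).trans (hut a)
  have hψ : (if a ∈ P then v else 0) + (if a ∈ W then min (φ a) v else 0) ≤ v := by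
    by_cases h1 : a ∈ P
    · have h2 : a ∉ W := fun h => Finset.disjoint_left.1 g.dPW h1 h
      rw [if_pos h1, if_neg h2, add_zero]
    · rw [if_neg h1, zero_add]
      split_ifs
      · exact min_le_right _ _
      · exact g.v0
  by_cases hbP : b ∈ P
  · have hbW : b ∉ W := fun h => Finset.disjoint_left.1 g.dPW hbP h
    refine ⟨A, W, P, v, g, ?_⟩
    rw [Lf_add, Lf_add, if_pos hbP, if_neg hbW, add_zero]
    have := mul_le_mul_of_nonneg_left hψ ht
    linarith
  by_cases hbW : b ∈ W
  · by_cases hc : (if a ∈ P then v else 0) + (if a ∈ W then min (φ a) v else 0) ≤ min (φ b) v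
    · refine ⟨A, W, P, v, g, ?_⟩
      rw [Lf_add W P φ v u b, Lf_add, if_neg hbP, if_pos hbW, zero_add]
      have := mul_le_mul_of_nonneg_left hc ht
      linarith
    · have hlt : φ b < v := by
        by_contra h
        push Not at h
        rw [min_eq_right h] at hc
        exact hc hψ
      have g1 : Good K A (W.erase b) P φ v := by
        refine ⟨g.nn, ?_, ?_, ?_, g.card, g.v0, ?_⟩
        · exact hK _ _ _ (Finset.union_subset_union_right (Finset.erase_subset _ _)) g.k0
        · exact g.dAW.mono_right (Finset.erase_subset _ _)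
        · exact g.dPW.mono_right (Finset.erase_subset _ _)
        · have e := g.eqn
          rw [← Finset.add_sum_erase W _ hbW, max_eq_right (by linarith), zero_add] at e
          exact e
      obtain ⟨A', W', P', v', g', h'⟩ := key3 hK g1 u t hu0 hut a b ha hbP (Finset.notMem_erase _ _)
      refine ⟨A', W', P', v', g', le_trans (le_of_eq ?_) h'⟩
      unfold Lf
      rw [← Finset.add_sum_erase W _ hbW]
      simp only [hb, if_neg (Ne.symm hab), add_zero, mul_zero, zero_add]
  · exact key3 hK g u t hu0 hut a b ha hbP hbW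

theorem iter {K : Finset ι → (ι → ℝ) → Prop} (hK : ∀ Z Z' φ, Z' ⊆ Z → K Z φ → K Z' φ)
    {φ : ι → ℝ} (t : ℝ) (E : Finset ι) : ∀ (D : Finset ι) (A W P : Finset ι) (v : ℝ)
    (_ : Good K A W P φ v) (u : ι → ℝ) (_ : 0 ≤ t)
    (_ : ∀ i, 0 ≤ u i) (_ : ∀ i, u i ≤ t) (_ : Disjoint E D) (_ : E.card ≤ D.card)
    (_ : ∀ i ∈ E, u i = 0) (_ : ∀ i ∈ D, u i = 0),
    ∃ (A' W' P' : Finset ι) (v' : ℝ), Good K A' W' P' φ v' ∧
      Lf W P φ v (fun i => u i + if i ∈ E then t else 0) ≤
        Lf W' P' φ v' (fun i => u i + if i ∈ D then t else 0) := by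
  induction E using Finset.induction_on with
  | empty =>
    intro D A W P v g u ht _ _ _ _ _ _
    refine ⟨A, W, P, v, g, Lf_mono g.nn g.v0 fun i => ?_⟩
    simp only [Finset.notMem_empty, if_false, add_zero]
    split_ifs <;> linarith
  | insert e E0 he ih =>
    intro D A W P v g u ht hu0 hut hdis hcard hE hD
    rw [Finset.card_insert_of_notMem he] at hcard
    obtain ⟨d, hd⟩ : D.Nonempty := Finset.card_pos.1 (by omega)
    have hdE : d ∉ insert e E0 := fun h => Finset.disjoint_left.1 hdis h hd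
    have hed : e ≠ d := fun h => hdE (h ▸ Finset.mem_insert_self _ _)
    have hdE0 : d ∉ E0 := fun h => hdE (Finset.mem_insert_of_mem h)
    obtain ⟨A1, W1, P1, v1, g1, h1⟩ := key hK g (fun i => u i + if i ∈ E0 then t else 0) t
      (fun i => by have := hu0 i; split_ifs <;> linarith)
      (fun i => by
        by_cases h : i ∈ E0
        · rw [if_pos h, hE i (Finset.mem_insert_of_mem h), zero_add]
        · rw [if_neg h, add_zero]; exact hut i)
      e d hed (by rw [if_neg he, hE e (Finset.mem_insert_self _ _), zero_add])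
      (by rw [if_neg hdE0, hD d hd, zero_add])
    obtain ⟨A2, W2, P2, v2, g2, h2⟩ := ih (D.erase d) A1 W1 P1 v1 g1
      (fun i => u i + if i = d then t else 0) ht
      (fun i => by have := hu0 i; split_ifs <;> linarith)
      (fun i => by
        by_cases h : i = d
        · rw [if_pos h, h, hD d hd, zero_add]
        · rw [if_neg h, add_zero]; exact hut i)
      ((hdis.mono_left (Finset.subset_insert _ _)).mono_right (Finset.erase_subset _ _))
      (by rw [Finset.card_erase_of_mem hd]; omega)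
      (fun i hi => by
        have : i ≠ d := fun h => hdE0 (h ▸ hi)
        rw [if_neg this, hE i (Finset.mem_insert_of_mem hi), zero_add])
      (fun i hi => by
        rw [Finset.mem_erase] at hi
        rw [if_neg hi.1, hD i hi.2, zero_add])
    refine ⟨A2, W2, P2, v2, g2, ?_⟩
    have e1 : (fun i => u i + if i ∈ insert e E0 then t else 0) =
        (fun i => (u i + if i ∈ E0 then t else 0) + if i = e then t else 0) := by
      funext i
      by_cases h : i = e
      · subst h; simp [he]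
      · simp [h]
    have e2 : (fun i => (u i + if i ∈ E0 then t else 0) + if i = d then t else 0) =
        (fun i => (u i + if i = d then t else 0) + if i ∈ E0 then t else 0) := by
      funext i; ring
    have e3 : (fun i => (u i + if i = d then t else 0) + if i ∈ D.erase d then t else 0) =
        (fun i => u i + if i ∈ D then t else 0) := by
      funext i
      by_cases h : i = d
      · subst h; simp [hd]
      · simp [h]
    rw [e1]
    rw [e2] at h1
    rw [e3] at h2
    exact h1.trans h2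

/-- Bound on `v` in terms of the democracy constant. -/
theorem v_bound {K : Finset ι → (ι → ℝ) → Prop} (hK : ∀ Z Z' φ, Z' ⊆ Z → K Z φ → K Z' φ)
    {θ C : ℝ} (hθ : θ < 1) (hC : 0 < C)
    (h0 : ∀ (Z : Finset ι) (φ : ι → ℝ), K Z φ → ∑ i ∈ Z, φ i ≤ C * (Z.card : ℝ) ^ θ)
    {A W P : Finset ι} {φ : ι → ℝ} {v : ℝ} (g : Good K A W P φ v) (hA : 0 < A.card) :
    v ≤ C * (A.card : ℝ) ^ (θ - 1) := by
  set E := W.filter (fun i => v < φ i) with hE
  have hdis : Disjoint A E := g.dAW.mono_right (Finset.filter_subset _ _)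
  have e1 : ∑ i ∈ W, max (φ i - v) 0 = ∑ i ∈ E, (φ i - v) := by
    rw [hE, Finset.sum_filter]
    refine Finset.sum_congr rfl fun i _ => ?_
    split_ifs with h
    · exact max_eq_left (by linarith)
    · exact max_eq_right (by linarith [not_lt.1 h])
  have e2 : ((A.card : ℝ) + E.card) * v = ∑ i ∈ A ∪ E, φ i := by
    rw [Finset.sum_union hdis, add_mul, g.eqn, e1, Finset.sum_sub_distrib]
    simp only [Finset.sum_const, nsmul_eq_mul]
    ring
  have hsub : A ∪ E ⊆ A ∪ W := Finset.union_subset_union_right (Finset.filter_subset _ _)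
  have e3 := h0 _ _ (hK _ _ _ hsub g.k0)
  rw [← e2, Finset.card_union_of_disjoint hdis, Nat.cast_add] at e3
  have hn : (0 : ℝ) < (A.card : ℝ) + E.card := by
    have : (0 : ℝ) < A.card := by exact_mod_cast hA
    positivity
  have e4 : v ≤ C * ((A.card : ℝ) + E.card) ^ (θ - 1) := by
    rw [Real.rpow_sub_one hn.ne', ← mul_div_assoc, le_div_iff₀ hn, mul_comm]
    exact e3
  refine e4.trans (mul_le_mul_of_nonneg_left ?_ hC.le)
  exact Real.rpow_le_rpow_of_nonpos (by exact_mod_cast hA) (by simp) (by linarith)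

theorem Lf_bound {K : Finset ι → (ι → ℝ) → Prop} (hK : ∀ Z Z' φ, Z' ⊆ Z → K Z φ → K Z' φ)
    {θ C : ℝ} (hθ : θ < 1) (hC : 0 < C)
    (h0 : ∀ (Z : Finset ι) (φ : ι → ℝ), K Z φ → ∑ i ∈ Z, φ i ≤ C * (Z.card : ℝ) ^ θ)
    {A W P : Finset ι} {φ : ι → ℝ} {v : ℝ} (g : Good K A W P φ v) (u : ι → ℝ) (n : ℝ)
    (hu : ∀ i, 0 ≤ u i)
    (h2 : ∀ B : Finset ι, ∑ i ∈ B, u i ≤ C * (B.card : ℝ) ^ (1 - θ) * n) (hn : 0 ≤ n)
    (h3 : ∀ (Z : Finset ι) (φ : ι → ℝ), K Z φ → ∑ i ∈ Z, φ i * u i ≤ n) :
    Lf W P φ v u ≤ (C ^ 2 + 1) * n := by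
  unfold Lf
  have e1 : ∑ i ∈ W, min (φ i) v * u i ≤ n := by
    refine le_trans (Finset.sum_le_sum fun i _ => ?_) (h3 W φ (hK _ _ _ Finset.subset_union_right g.k0))
    exact mul_le_mul_of_nonneg_right (min_le_left _ _) (hu i)
  have e2 : v * ∑ i ∈ P, u i ≤ C ^ 2 * n := by
    rcases Nat.eq_zero_or_pos A.card with h | h
    · rw [← g.card, Finset.card_eq_zero] at h
      rw [h, Finset.sum_empty, mul_zero]
      positivity
    · have hv := v_bound hK hθ hC h0 g h
      rw [← g.card] at hv h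
      have hp : (0 : ℝ) < P.card := by exact_mod_cast h
      calc v * ∑ i ∈ P, u i ≤ (C * (P.card : ℝ) ^ (θ - 1)) * (C * (P.card : ℝ) ^ (1 - θ) * n) :=
            mul_le_mul hv (h2 P) (Finset.sum_nonneg fun i _ => hu i) (by positivity)
        _ = C ^ 2 * ((P.card : ℝ) ^ (θ - 1) * (P.card : ℝ) ^ (1 - θ)) * n := by ring
        _ = C ^ 2 * n := by
            rw [← Real.rpow_add hp]
            norm_num
  linarith

omit [DecidableEq ι] in
theorem Lf_add2 (W P : Finset ι) (φ : ι → ℝ) (v : ℝ) (u w : ι → ℝ) :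
    Lf W P φ v (fun i => u i + w i) = Lf W P φ v u + Lf W P φ v w := by
  unfold Lf
  simp only [mul_add, Finset.sum_add_distrib]
  ring

omit [DecidableEq ι] in
theorem Lf_smul (W P : Finset ι) (φ : ι → ℝ) (v : ℝ) (u : ι → ℝ) (c : ℝ) :
    Lf W P φ v (fun i => c * u i) = c * Lf W P φ v u := by
  unfold Lf
  rw [mul_add, ← Finset.mul_sum, Finset.mul_sum (s := W)]
  congr 1
  · ring
  · exact Finset.sum_congr rfl fun i _ => by ring

theorem ren : Pool.Agent.Y105.HG.S_REN := by
  intro 𝕜 _ X _ _ ι _ e a θ C hθ0 hθ1 hC hae h1 h2 h3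
  set K : Finset ι → (ι → ℝ) → Prop := fun Z φ =>
    (∀ i, 0 ≤ φ i) ∧ ∀ y : X, ∑ i ∈ Z, φ i * ‖a i y‖ ≤ ‖y‖ with hKdef
  have hK : ∀ Z Z' φ, Z' ⊆ Z → K Z φ → K Z' φ := by
    rintro Z Z' φ hZ ⟨h, h'⟩
    refine ⟨h, fun y => le_trans ?_ (h' y)⟩
    exact Finset.sum_le_sum_of_subset_of_nonneg hZ fun i _ _ => mul_nonneg (h i) (norm_nonneg _)
  have h0 : ∀ (Z : Finset ι) (φ : ι → ℝ), K Z φ → ∑ i ∈ Z, φ i ≤ C * (Z.card : ℝ) ^ θ := by
    rintro Z φ ⟨hφ, h⟩
    have hh := h (∑ i ∈ Z, (1 : 𝕜) • e i)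
    have hv : ∀ i ∈ Z, φ i * ‖a i (∑ j ∈ Z, (1 : 𝕜) • e j)‖ = φ i := by
      intro i hi
      have : a i (∑ j ∈ Z, (1 : 𝕜) • e j) = 1 := by
        simp only [map_sum, one_smul, hae, Finset.sum_ite_eq, hi, if_true]
      rw [this, norm_one, mul_one]
    rw [Finset.sum_congr rfl hv] at hh
    exact hh.trans (h1 Z (fun _ => 1) (fun _ => by simp))
  -- the index type
  let I := {p : Finset ι × Finset ι × Finset ι × (ι → ℝ) × ℝ //
    Good K p.1 p.2.1 p.2.2.1 p.2.2.2.1 p.2.2.2.2}
  let L : I → (ι → ℝ) → ℝ := fun p u => Lf p.1.2.1 p.1.2.2.1 p.1.2.2.2.1 p.1.2.2.2.2 u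
  have hbd : ∀ (p : I) (x : X), L p (fun i => ‖a i x‖) ≤ (C ^ 2 + 1) * ‖x‖ := by
    rintro ⟨p, g⟩ x
    exact Lf_bound hK hθ1 hC h0 g (fun i => ‖a i x‖) ‖x‖ (fun i => norm_nonneg _)
      (fun B => h2 B x) (norm_nonneg _) (fun Z φ h => h.2 x)
  have hL0 : ∀ (p : I) (x : X), 0 ≤ L p (fun i => ‖a i x‖) := by
    rintro ⟨p, g⟩ x
    refine add_nonneg (mul_nonneg g.v0 (Finset.sum_nonneg fun i _ => norm_nonneg _))
      (Finset.sum_nonneg fun i _ => mul_nonneg (le_min (g.nn i) g.v0) (norm_nonneg _))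
  have hgood : ∀ (F : Finset ι) (φ : ι → ℝ), (∀ i, 0 ≤ φ i) →
      (∀ y : X, ∑ i ∈ F, φ i * ‖a i y‖ ≤ ‖y‖) →
      Good K ∅ F ∅ φ (∑ i ∈ F, φ i) := by
    intro F φ hφ hF
    refine ⟨hφ, ?_, Finset.disjoint_empty_left _, Finset.disjoint_empty_left _, rfl,
      Finset.sum_nonneg fun i _ => hφ i, ?_⟩
    · rw [Finset.empty_union]; exact ⟨hφ, hF⟩
    · rw [Finset.card_empty, Nat.cast_zero, zero_mul, Finset.sum_empty, zero_add]
      symm
      refine Finset.sum_eq_zero fun i hi => max_eq_right ?_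
      have := Finset.single_le_sum (f := φ) (fun i _ => hφ i) hi
      linarith
  have hne : Nonempty I := ⟨⟨(∅, ∅, ∅, fun _ => 0, ∑ i ∈ (∅ : Finset ι), (fun _ : ι => (0 : ℝ)) i),
    hgood ∅ (fun _ => 0) (fun _ => le_rfl) (fun y => by simp)⟩⟩
  have hba : ∀ x : X, BddAbove (Set.range fun p : I => L p (fun i => ‖a i x‖)) := by
    intro x
    refine ⟨(C ^ 2 + 1) * ‖x‖, ?_⟩
    rintro _ ⟨p, rfl⟩
    exact hbd p x
  let N : Seminorm 𝕜 X := Seminorm.ofSMulLE (fun x => ⨆ p : I, L p (fun i => ‖a i x‖))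
    (by
      have : ∀ p : I, L p (fun i => ‖a i (0 : X)‖) = 0 := by
        intro p
        refine le_antisymm ?_ (hL0 p 0)
        have := hbd p 0
        simpa using this
      simp only [this, ciSup_const])
    (by
      intro x y
      refine ciSup_le fun p => ?_
      have hm : L p (fun i => ‖a i (x + y)‖) ≤ L p (fun i => ‖a i x‖ + ‖a i y‖) := by
        refine Lf_mono p.2.nn p.2.v0 fun i => ?_
        rw [map_add]
        exact norm_add_le _ _
      refine hm.trans ?_
      change Lf _ _ _ _ _ ≤ _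
      rw [Lf_add2]
      exact add_le_add (le_ciSup (hba x) p) (le_ciSup (hba y) p))
    (by
      intro r x
      refine ciSup_le fun p => ?_
      have hm : L p (fun i => ‖a i (r • x)‖) = ‖r‖ * L p (fun i => ‖a i x‖) := by
        change Lf _ _ _ _ _ = ‖r‖ * Lf _ _ _ _ _
        rw [← Lf_smul]
        congr 1
        funext i
        rw [map_smul, norm_smul]
      rw [hm]
      exact mul_le_mul_of_nonneg_left (le_ciSup (hba x) p) (norm_nonneg _))
  have hN : ∀ x, N x = ⨆ p : I, L p (fun i => ‖a i x‖) := fun x => rfl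
  refine ⟨N, ⟨1 / C, by positivity, C ^ 2 + 1, fun x => ⟨?_, ?_⟩⟩, ?_⟩
  · have hx := h3 x (N x) (fun F φ hφ hF => by
      have hg := hgood F φ hφ hF
      have hle := le_ciSup (hba x) (⟨(∅, F, ∅, φ, ∑ i ∈ F, φ i), hg⟩ : I)
      rw [← hN] at hle
      refine le_trans (le_of_eq ?_) hle
      change _ = Lf F ∅ φ (∑ i ∈ F, φ i) (fun i => ‖a i x‖)
      unfold Lf
      rw [Finset.sum_empty, mul_zero, zero_add]
      refine Finset.sum_congr rfl fun i hi => ?_
      rw [min_eq_left (Finset.single_le_sum (f := φ) (fun i _ => hφ i) hi)])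
    rw [one_div, inv_mul_le_iff₀ hC]
    exact hx
  · rw [hN]
    exact ciSup_le fun p => hbd p x
  · intro x A B b hgr hcard
    rcases A.eq_empty_or_nonempty with hA | hA
    · subst hA
      rw [Finset.card_empty, Nat.le_zero, Finset.card_eq_zero] at hcard
      subst hcard
      simp
    obtain ⟨i0, hi0, hmin⟩ := Finset.exists_min_image A (fun i => ‖a i x‖) hA
    set t : ℝ := ‖a i0 x‖ with ht
    set u : ι → ℝ := fun i => if i ∈ A ∪ B then 0 else ‖a i x‖ with hu
    have hax : ∀ i, a i (x - ∑ j ∈ A, a j x • e j) = if i ∈ A then 0 else a i x := by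
      intro i
      simp only [map_sub, map_sum, map_smul, hae, smul_eq_mul, mul_ite, mul_one, mul_zero,
        Finset.sum_ite_eq]
      split_ifs <;> ring
    have hay : ∀ i, a i (x - ∑ j ∈ B, b j • e j) = if i ∈ B then a i x - b i else a i x := by
      intro i
      simp only [map_sub, map_sum, map_smul, hae, smul_eq_mul, mul_ite, mul_one, mul_zero,
        Finset.sum_ite_eq]
      split_ifs <;> ring
    rw [hN, hN]
    refine ciSup_le ?_
    rintro ⟨⟨A0, W, P, φ, v⟩, g⟩
    have hm1 : Lf W P φ v (fun i => ‖a i (x - ∑ j ∈ A, a j x • e j)‖) ≤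
        Lf W P φ v (fun i => u i + if i ∈ B \ A then t else 0) := by
      refine Lf_mono g.nn g.v0 fun i => ?_
      rw [hax]
      by_cases hiA : i ∈ A
      · have : i ∉ B \ A := fun h => (Finset.mem_sdiff.1 h).2 hiA
        rw [if_pos hiA, norm_zero, if_neg this, add_zero, hu]
        simp only
        split_ifs
        · exact le_rfl
        · exact norm_nonneg _
      · rw [if_neg hiA]
        by_cases hiB : i ∈ B
        · rw [if_pos (Finset.mem_sdiff.2 ⟨hiB, hiA⟩), hu]
          simp only [Finset.mem_union, hiB, or_true, if_true, zero_add]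
          exact hgr i0 hi0 i hiA
        · have h5 : i ∉ B \ A := fun h => hiB (Finset.mem_sdiff.1 h).1
          rw [if_neg h5, hu]
          simp [hiA, hiB]
    obtain ⟨A1, W1, P1, v1, g1, h5⟩ := iter hK t (B \ A) (A \ B) A0 W P v g u (norm_nonneg _)
      (fun i => by rw [hu]; simp only; split_ifs; exacts [le_rfl, norm_nonneg _])
      (fun i => by
        rw [hu]; simp only
        split_ifs with h
        · exact norm_nonneg _
        · exact hgr i0 hi0 i (fun h' => h (Finset.mem_union_left _ h')))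
      (Finset.disjoint_left.2 fun i hi hi2 =>
        (Finset.mem_sdiff.1 hi).2 (Finset.mem_sdiff.1 hi2).1)
      (by
        have e1 := Finset.card_sdiff_add_card_inter A B
        have e2 := Finset.card_sdiff_add_card_inter B A
        rw [Finset.inter_comm] at e2
        omega)
      (fun i hi => by
        rw [hu]
        simp [(Finset.mem_sdiff.1 hi).1])
      (fun i hi => by
        rw [hu]
        simp [(Finset.mem_sdiff.1 hi).1])
    have hm2 : Lf W1 P1 φ v1 (fun i => u i + if i ∈ A \ B then t else 0) ≤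
        Lf W1 P1 φ v1 (fun i => ‖a i (x - ∑ j ∈ B, b j • e j)‖) := by
      refine Lf_mono g1.nn g1.v0 fun i => ?_
      rw [hay]
      by_cases hiB : i ∈ B
      · have : i ∉ A \ B := fun h => (Finset.mem_sdiff.1 h).2 hiB
        rw [if_neg this, add_zero, hu]
        simp only [Finset.mem_union, hiB, or_true, if_true]
        exact norm_nonneg _
      · rw [if_neg hiB]
        by_cases hiA : i ∈ A
        · rw [if_pos (Finset.mem_sdiff.2 ⟨hiA, hiB⟩), hu]
          simp only [Finset.mem_union, hiA, true_or, if_true, zero_add]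
          exact hmin i hiA
        · have h5 : i ∉ A \ B := fun h => hiA (Finset.mem_sdiff.1 h).1
          rw [if_neg h5, hu]
          simp [hiA, hiB]
    have hfin := le_ciSup (hba (x - ∑ j ∈ B, b j • e j)) (⟨(A1, W1, P1, φ, v1), g1⟩ : I)
    exact hm1.trans (h5.trans (hm2.trans hfin))

end Pool.Agent.Y380.HG
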